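import Mathlib
import Pool.Agent.H8.Criterion

set_option autoImplicit false

namespace Pool.Agent.Results.MP_aff84d_nt.Criterion

theorem result (a b : ℤ) :
    (∃ x y z : ℤ, x ^ 2 + y ^ 2 + z ^ 2 - a * x * y * z = b) ↔
      ∃ x y : ℤ, 0 ≤ x ∧ x ≤ y ∧ y ^ 2 ≤ |b| + 9 ∧
        ((0 ≤ b ∧ x ^ 2 + (|a| * x + 2) * y ^ 2 ≤ b) ∨
          (b < 0 ∧ 3 ≤ |a| * x ∧ (|a| * x - 2) * y ^ 2 ≤ x ^ 2 - b)) ∧
        IsSquare (a ^ 2 * x ^ 2 * y ^ 2 + 4 * (b - x ^ 2 - y ^ 2)) :=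
  Pool.Agent.H8.Criterion.main a b

end Pool.Agent.Results.MP_aff84d_nt.Criterion
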