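import Mathlib
import Pool.Agent.HFO.Fin

set_option autoImplicit false

namespace Pool.Agent.Results.MP_aff84d_nt.HasseFailuresAll

theorem result (a : ℤ) (ha : a ≠ 0)
    (h : (a % 8 = 3 ∨ a % 8 = 5) → (9 : ℤ) ∣ a →
      ∃ p : ℕ, p.Prime ∧ p % 8 = 3 ∧ Odd (padicValInt p a)) :
    {b : ℤ | (∀ m : ℕ, 0 < m →
        ∃ x y z : ℤ, (m : ℤ) ∣ x ^ 2 + y ^ 2 + z ^ 2 - a * x * y * z - b) ∧
      ¬ ∃ x y z : ℤ, x ^ 2 + y ^ 2 + z ^ 2 - a * x * y * z = b}.Infinite := by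
  apply Pool.Agent.HFO.main a ha
  rintro ⟨h1, h2, h3⟩
  obtain ⟨p, hp, hp8, hodd⟩ := h h1 h2
  exact (Nat.not_even_iff_odd.mpr hodd) (h3 p hp hp8)

end Pool.Agent.Results.MP_aff84d_nt.HasseFailuresAll
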