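import Mathlib
import Pool.Agent.H8.MarkoffLocal2

set_option autoImplicit false

namespace Pool.Agent.Results.MP_aff84d_nt.LocalConditions

open Pool.Agent.H8.MarkoffLocal

theorem result (a b : ℤ) :
    (∀ m : ℕ, 0 < m →
      ∃ x y z : ℤ, (m : ℤ) ∣ x ^ 2 + y ^ 2 + z ^ 2 - a * x * y * z - b) ↔
    ((3 : ℤ) ∣ a ∨ (b % 9 ≠ 3 ∧ b % 9 ≠ 6)) ∧
    (a % 2 = 1 → b % 4 ≠ 3) ∧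
    (a % 4 = 2 → b % 4 ≠ 3 ∧ b % 8 ≠ 6 ∧ b % 32 ≠ 12 ∧
      ∀ (i : ℕ) (m : ℤ), b ≠ 4 ^ (i + 2) * (8 * m + 7)) ∧
    (a % 8 = 4 → b % 8 ≠ 3 ∧ ∀ (i : ℕ) (m : ℤ), b ≠ 4 ^ (i + 1) * (8 * m + 7)) ∧
    (a % 8 = 0 → ∀ (i : ℕ) (m : ℤ), b ≠ 4 ^ i * (8 * m + 7)) :=
  loc_iff a b

end Pool.Agent.Results.MP_aff84d_nt.LocalConditions
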