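import Mathlib
import Pool.Agent.MKA.FinAllC

set_option autoImplicit false

namespace Pool.Agent.Results.MP_aff84d_nt.Threshold

open Finset

/-- The explicit congruence conditions on `(a, b)`. -/
def Cond (a b : ℤ) : Prop :=
  ((3 : ℤ) ∣ a ∨ (b % 9 ≠ 3 ∧ b % 9 ≠ 6)) ∧
  (a % 2 = 1 → b % 4 ≠ 3) ∧
  (a % 4 = 2 → b % 4 ≠ 3 ∧ b % 8 ≠ 6 ∧ b % 32 ≠ 12 ∧
    ∀ (i : ℕ) (m : ℤ), b ≠ 4 ^ (i + 2) * (8 * m + 7)) ∧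
  (a % 8 = 4 → b % 8 ≠ 3 ∧ ∀ (i : ℕ) (m : ℤ), b ≠ 4 ^ (i + 1) * (8 * m + 7)) ∧
  (a % 8 = 0 → ∀ (i : ℕ) (m : ℤ), b ≠ 4 ^ i * (8 * m + 7))

open Classical in
theorem result : ∃ C : ℝ, 0 < C ∧ ∀ (N : ℕ) (a : ℤ), 16 ≤ N → a ≠ 0 →
    (2 * |(a : ℝ)| ≤ Real.log N ^ 2 →
      (((Icc (-(N : ℤ)) N).filter fun b : ℤ =>
        ¬ ((∃ x y z : ℤ, x ^ 2 + y ^ 2 + z ^ 2 - a * x * y * z = b) ↔ Cond a b)).card : ℝ) ≤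
        C * N / Real.log (Real.log N ^ 2 / |(a : ℝ)|) ^ (1 / 4 : ℝ)) ∧
    (((Icc (-(N : ℤ)) N).filter fun b : ℤ =>
        ¬ ((∃ x y z : ℤ, x ^ 2 + y ^ 2 + z ^ 2 - a * x * y * z = b) ↔
          ∃ u v : ℤ, b = u ^ 2 + v ^ 2)).card : ℝ) ≤
      9 * N * (1 + Real.log N) ^ 2 / |(a : ℝ)| := by
  obtain ⟨C, hC, h⟩ := Pool.Agent.MKA.fin_all
  refine ⟨C, hC, fun N a hN ha => ⟨fun h2 => ?_, ?_⟩⟩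
  · exact h N a hN ha h2
  · exact Pool.Agent.MKA.large_a N a (by omega) ha

end Pool.Agent.Results.MP_aff84d_nt.Threshold
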